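import Mathlib

set_option autoImplicit false

namespace Pool.Agent.H567.Border

open Finset MvPolynomial

/-- Clearing denominators of a polynomial over `k(ε)` whose coefficients are defined at `ε = 0`. -/
theorem exists_clear (k : Type*) [Field k] {σ : Type*} (F : MvPolynomial σ (RatFunc k))
    (f : MvPolynomial σ k)
    (hF : ∀ d : σ →₀ ℕ, (F.coeff d).denom.eval 0 ≠ 0 ∧
      RatFunc.eval (RingHom.id k) 0 (F.coeff d) = f.coeff d) :
    ∃ (g : Polynomial k) (G : MvPolynomial σ (Polynomial k)), g.eval 0 ≠ 0 ∧
      MvPolynomial.map (algebraMap (Polynomial k) (RatFunc k)) G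
        = C (algebraMap (Polynomial k) (RatFunc k) g) * F ∧
      MvPolynomial.map (Polynomial.evalRingHom (0 : k)) G = C (g.eval 0) * f := by
  classical
  set g : Polynomial k := ∏ d ∈ F.support, (F.coeff d).denom with hg
  set q : (σ →₀ ℕ) → Polynomial k := fun d =>
    (F.coeff d).num * ∏ d' ∈ F.support.erase d, (F.coeff d').denom with hq
  have hsub : ∀ d, d ∉ F.support → f.coeff d = 0 := by
    intro d hd
    rw [← (hF d).2, MvPolynomial.notMem_support_iff.mp hd]
    simp
  refine ⟨g, ∑ d ∈ F.support, monomial d (q d), ?_, ?_, ?_⟩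
  · rw [hg, Polynomial.eval_prod]
    exact Finset.prod_ne_zero_iff.mpr (fun d _ => (hF d).1)
  · ext d
    rw [map_sum, MvPolynomial.coeff_sum, MvPolynomial.coeff_C_mul]
    simp only [MvPolynomial.map_monomial, MvPolynomial.coeff_monomial]
    rw [Finset.sum_ite_eq' F.support d]
    split_ifs with hd
    · have h1 : g = (F.coeff d).denom * ∏ d' ∈ F.support.erase d, (F.coeff d').denom :=
        (Finset.mul_prod_erase _ _ hd).symm
      have h2 : algebraMap (Polynomial k) (RatFunc k) (F.coeff d).num
          = F.coeff d * algebraMap (Polynomial k) (RatFunc k) (F.coeff d).denom := by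
        have h3 := RatFunc.num_div_denom (F.coeff d)
        have h4 : algebraMap (Polynomial k) (RatFunc k) (F.coeff d).denom ≠ 0 := by
          rw [Ne, FaithfulSMul.algebraMap_eq_zero_iff]
          exact RatFunc.denom_ne_zero _
        rw [div_eq_iff h4] at h3
        exact h3
      simp only [hq]
      rw [h1, map_mul, map_mul, h2]
      ring
    · rw [MvPolynomial.notMem_support_iff.mp hd, mul_zero]
  · ext d
    rw [map_sum, MvPolynomial.coeff_sum, MvPolynomial.coeff_C_mul]
    simp only [MvPolynomial.map_monomial, MvPolynomial.coeff_monomial]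
    rw [Finset.sum_ite_eq' F.support d]
    split_ifs with hd
    · have h1 : g = (F.coeff d).denom * ∏ d' ∈ F.support.erase d, (F.coeff d').denom :=
        (Finset.mul_prod_erase _ _ hd).symm
      simp only [hq, Polynomial.coe_evalRingHom]
      rw [h1, Polynomial.eval_mul, Polynomial.eval_mul, ← (hF d).2]
      unfold RatFunc.eval
      simp only [Polynomial.eval₂_id]
      have := (hF d).1
      field_simp
    · rw [hsub d hd, mul_zero]

end Pool.Agent.H567.Border
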