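import Mathlib
import Pool.Agent.H567.Nec.Formula
import Pool.Agent.H567.Nec.Blocks

set_option autoImplicit false
set_option linter.unusedSectionVars false

namespace Pool.Agent.H567.Border

open Finset MvPolynomial

/-- If the reductions of a family of vectors span everything then the vectors span everything
over the fraction field. -/
theorem border_top {R k L Ξ : Type*} [CommRing R] [Field k] [Field L] {ω : Type*} [Fintype ω]
    (π : R →+* k) (ι : R →+* L) (hι : Function.Injective ι) (x : Ξ → ω → R)
    (h : ∀ A : Submodule k (ω → k), (∀ ξ, (fun w => π (x ξ w)) ∈ A) → A = ⊤)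
    (D : Submodule L (ω → L)) (hD : ∀ ξ, (fun w => ι (x ξ w)) ∈ D) : D = ⊤ := by
  classical
  set t : Set (ω → k) := Set.range (fun ξ => (fun w => π (x ξ w))) with ht
  have hspan : Submodule.span k t = ⊤ := h _ (fun ξ => Submodule.subset_span ⟨ξ, rfl⟩)
  obtain ⟨b, hbt, hbs, hbl⟩ := exists_linearIndependent k t
  rw [hspan] at hbs
  have hbasis : ∃ e : ω ≃ b, True := by
    have B := Module.Basis.mk hbl (by rw [Subtype.range_coe_subtype]; simp [hbs])
    exact ⟨(Pi.basisFun k ω).indexEquiv B, trivial⟩
  obtain ⟨e, -⟩ := hbasis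
  have hch : ∀ w : ω, ∃ ξ : Ξ, (fun w' => π (x ξ w')) = (e w : ω → k) := fun w => hbt (e w).2
  choose ξ hξ using hch
  set M : Matrix ω ω R := Matrix.of (fun w => x (ξ w)) with hM
  have h1 : (M.map π).det ≠ 0 := by
    have : LinearIndependent k (M.map π).row := by
      have h2 : (M.map π).row = (fun w : ω => (e w : ω → k)) := by
        funext w
        rw [← hξ w]
        rfl
      rw [h2]
      exact hbl.comp e e.injective
    rw [Matrix.linearIndependent_rows_iff_isUnit] at this
    exact ((Matrix.isUnit_iff_isUnit_det _).mp this).ne_zero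
  have h2 : M.det ≠ 0 := by
    intro h0
    apply h1
    have := RingHom.map_det π M
    rw [h0, map_zero] at this
    exact this.symm
  have h3 : (M.map ι).det ≠ 0 := by
    have := RingHom.map_det ι M
    intro h0
    apply h2
    apply hι
    rw [map_zero, this]
    exact h0
  have h4 : LinearIndependent L (M.map ι).row := by
    rw [Matrix.linearIndependent_rows_iff_isUnit, Matrix.isUnit_iff_isUnit_det]
    exact isUnit_iff_ne_zero.mpr h3
  have h5 : Submodule.span L (Set.range (M.map ι).row) = ⊤ := by
    apply LinearIndependent.span_eq_top_of_card_eq_finrank' h4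
    simp
  rw [eq_top_iff, ← h5, Submodule.span_le]
  rintro _ ⟨w, rfl⟩
  exact hD (ξ w)

/-- Base change of dual numbers. -/
noncomputable def tmap {R S : Type*} [CommRing R] [CommRing S] (ω : Type*) (φ : R →+* S) :
    TrivSqZeroExt R (ω → R) →+* TrivSqZeroExt S (ω → S) where
  toFun x := TrivSqZeroExt.inl (φ x.fst) + TrivSqZeroExt.inr (fun w => φ (x.snd w))
  map_one' := by
    apply TrivSqZeroExt.ext
    · simp
    · funext w; simp
  map_mul' x y := by
    apply TrivSqZeroExt.ext
    · simp
    · funext w; simp
  map_zero' := by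
    apply TrivSqZeroExt.ext
    · simp
    · funext w; simp
  map_add' x y := by
    apply TrivSqZeroExt.ext
    · simp
    · funext w; simp

@[simp] lemma tmap_fst {R S : Type*} [CommRing R] [CommRing S] (ω : Type*) (φ : R →+* S)
    (x : TrivSqZeroExt R (ω → R)) : (tmap ω φ x).fst = φ x.fst := by
  simp [tmap]

@[simp] lemma tmap_snd {R S : Type*} [CommRing R] [CommRing S] (ω : Type*) (φ : R →+* S)
    (x : TrivSqZeroExt R (ω → R)) (w : ω) : (tmap ω φ x).snd w = φ (x.snd w) := by
  simp [tmap]

lemma tmap_algebraMap {R S : Type*} [CommRing R] [CommRing S] (ω : Type*) (φ : R →+* S) (r : R) :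
    tmap ω φ (algebraMap R _ r) = algebraMap S _ (φ r) := by
  apply TrivSqZeroExt.ext
  · simp [TrivSqZeroExt.algebraMap_eq_inl]
  · funext w; simp [TrivSqZeroExt.algebraMap_eq_inl]

lemma tmap_tmap {R S T : Type*} [CommRing R] [CommRing S] [CommRing T] (ω : Type*)
    (φ : R →+* S) (ψ : S →+* T) (x : TrivSqZeroExt R (ω → R)) :
    tmap ω ψ (tmap ω φ x) = tmap ω (ψ.comp φ) x := by
  apply TrivSqZeroExt.ext
  · simp
  · funext w; simp

/-- jets commute with base change -/
lemma tmap_aeval {R S : Type*} [CommRing R] [CommRing S] {σ : Type*} (ω : Type*) (φ : R →+* S)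
    (P : σ → TrivSqZeroExt R (ω → R)) (F : MvPolynomial σ R) :
    tmap ω φ (aeval P F) = aeval (fun v => tmap ω φ (P v)) (MvPolynomial.map φ F) := by
  induction F using MvPolynomial.induction_on with
  | C a => simp [tmap_algebraMap]
  | add p q hp hq => simp [hp, hq]
  | mul_X p i hp => simp [hp]

end Pool.Agent.H567.Border
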