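import Mathlib
import Pool.Agent.H567.Border.Lift
import Pool.Agent.H567.Border.Clear

set_option autoImplicit false
set_option linter.unusedSectionVars false

namespace Pool.Agent.H567.Border

open Finset MvPolynomial Pool.Agent.H567.Nec

universe u

lemma snd_algebraMap_mul {K : Type*} [Field K] {ω : Type*} (c : K) (x : TrivSqZeroExt K (ω → K)) :
    (algebraMap K (TrivSqZeroExt K (ω → K)) c * x).snd = c • x.snd := by
  rw [TrivSqZeroExt.snd_mul, TrivSqZeroExt.algebraMap_eq_inl]
  simp

/-- The jets of a polynomial over `k(ε)` which tends to the permanent span everything. -/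
theorem border_span (k : Type u) [Field k] {m n' : ℕ} {Ξ : Type}
    (P : (Ξ → k) → (Fin m × Fin m) → TrivSqZeroExt k (Fin n' × Fin n' → k))
    (h3 : ∀ A : Submodule k (Fin n' × Fin n' → k),
        (∀ ξ, (MvPolynomial.aeval (P ξ) (gperm k m)).snd ∈ A) → A = ⊤)
    (F : MvPolynomial (Fin m × Fin m) (RatFunc k))
    (hF : ∀ d : Fin m × Fin m →₀ ℕ, (F.coeff d).denom.eval 0 ≠ 0 ∧
      RatFunc.eval (RingHom.id k) 0 (F.coeff d) = (gperm k m).coeff d)
    (D : Submodule (RatFunc k) (Fin n' × Fin n' → RatFunc k))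
    (hD : ∀ ξ, (MvPolynomial.aeval (fun v => tmap (Fin n' × Fin n') (algebraMap (Polynomial k) (RatFunc k))
      (tmap (Fin n' × Fin n') Polynomial.C (P ξ v))) F).snd ∈ D) : D = ⊤ := by
  obtain ⟨g, G, hg, hG1, hG2⟩ := exists_clear k F (gperm k m) hF
  apply border_top (R := Polynomial k) (k := k) (Polynomial.evalRingHom (0 : k))
    (algebraMap (Polynomial k) (RatFunc k)) (FaithfulSMul.algebraMap_injective _ _)
    (fun ξ w => (MvPolynomial.aeval (fun v => tmap (Fin n' × Fin n') Polynomial.C (P ξ v)) G).snd w)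
  · intro A hA
    apply h3
    intro ξ
    have h4 := hA ξ
    have h5 : (fun w => (Polynomial.evalRingHom (0 : k))
        ((MvPolynomial.aeval (fun v => tmap (Fin n' × Fin n') Polynomial.C (P ξ v)) G).snd w))
        = g.eval 0 • (MvPolynomial.aeval (P ξ) (gperm k m)).snd := by
      have h6 := tmap_aeval (Fin n' × Fin n') (Polynomial.evalRingHom (0 : k))
        (fun v => tmap (Fin n' × Fin n') Polynomial.C (P ξ v)) G
      have h7 : (fun v => tmap (Fin n' × Fin n') (Polynomial.evalRingHom (0 : k))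
          (tmap (Fin n' × Fin n') Polynomial.C (P ξ v))) = P ξ := by
        funext v
        rw [tmap_tmap]
        apply TrivSqZeroExt.ext
        · simp
        · funext w; simp
      rw [h7, hG2, map_mul, MvPolynomial.aeval_C] at h6
      rw [← snd_algebraMap_mul, ← h6]
      funext w
      exact (tmap_snd _ _ _ w).symm
    rw [h5] at h4
    have h8 := A.smul_mem (g.eval 0)⁻¹ h4
    rwa [smul_smul, inv_mul_cancel₀ hg, one_smul] at h8
  · intro ξ
    have h6 := tmap_aeval (Fin n' × Fin n') (algebraMap (Polynomial k) (RatFunc k))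
        (fun v => tmap (Fin n' × Fin n') Polynomial.C (P ξ v)) G
    rw [hG1, map_mul, MvPolynomial.aeval_C] at h6
    have h5 : (fun w => (algebraMap (Polynomial k) (RatFunc k))
        ((MvPolynomial.aeval (fun v => tmap (Fin n' × Fin n') Polynomial.C (P ξ v)) G).snd w))
        = (algebraMap (Polynomial k) (RatFunc k) g) •
          (MvPolynomial.aeval (fun v => tmap (Fin n' × Fin n') (algebraMap (Polynomial k) (RatFunc k))
            (tmap (Fin n' × Fin n') Polynomial.C (P ξ v))) F).snd := by
      rw [← snd_algebraMap_mul, ← h6]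
      funext w
      exact (tmap_snd _ _ _ w).symm
    rw [h5]
    exact D.smul_mem _ (hD ξ)

/-- Local form. -/
theorem local_bound {k : Type u} [Field k] [CharZero k] (m ℓ n' : ℕ) (hm : 2 * ℓ + n' = m)
    (hn : n' ≤ 2 ^ ℓ) (r c : Fin (2 * ℓ) → Fin m) (hr : Function.Injective r)
    (hc : Function.Injective c) (f : Formula (RatFunc k) (Fin m × Fin m))
    (hf : ∀ d : Fin m × Fin m →₀ ℕ, (f.poly.coeff d).denom.eval 0 ≠ 0 ∧
      RatFunc.eval (RingHom.id k) 0 (f.poly.coeff d) = (gperm k m).coeff d) :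
    n' ^ 2 ≤ 4 * f.occ (Finset.univ.image (fun s => (r s, c s))) + 1 := by
  classical
  obtain ⟨Ξ, P, h1, h2, h3⟩ := exists_jets k m ℓ n' hm hn r c hr hc
  obtain ⟨D, hD, hDmem⟩ := Formula.exists_submodule
    (P := fun ξ v => tmap (Fin n' × Fin n') (algebraMap (Polynomial k) (RatFunc k))
      (tmap (Fin n' × Fin n') Polynomial.C (P ξ v)))
    (T := Finset.univ.image (fun s => (r s, c s))) (by
      intro v hv ξ
      obtain ⟨s, _, rfl⟩ := Finset.mem_image.mp hv
      funext w
      rw [tmap_snd, tmap_snd, h1 ξ s]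
      simp) (by
      intro v hv ξ ξ'
      show tmap _ _ _ = tmap _ _ _
      rw [h2 ξ ξ' v]
      exact fun s hs => hv (Finset.mem_image.mpr ⟨s, Finset.mem_univ _, hs.symm⟩)) f
  have hT : D = ⊤ := border_span k P h3 f.poly hf D hDmem
  rw [hT, finrank_top] at hD
  simp only [Module.finrank_fintype_fun_eq_card, Fintype.card_prod, Fintype.card_fin] at hD
  rw [pow_two]
  convert hD using 3

end Pool.Agent.H567.Border
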